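import Pool.Agent.DPL.StmtsA
import Pool.Agent.Helper59_DPS.All

/-!
Squad DPL (MP_d97b4e_co), row IDE: spectral decomposition of `Y`.
-/

namespace Pool.Agent.DPL.H94

open Finset Polynomial Pool.Agent.DPS

theorem ide : IDEStmt := by
  classical
  intro n k hn
  have hv : Set.InjOn (y n) (Finset.range (k + 1) : Finset ℕ) :=
    DPS.H94.y_injOn hn _ fun i hi => by
      rw [Finset.mem_range] at hi
      omega
  have h0 := DPS.H94.ann DPS.H59.mpo' n k
  have hnod : aeval (Y n k) (Lagrange.nodal (Finset.range (k + 1)) (y n)) = 0 := by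
    have h1 : ∏ l ∈ Finset.range (k + 1), (C (y n l) - X) =
        C ((-1 : ℝ) ^ (Finset.range (k + 1)).card) *
          Lagrange.nodal (Finset.range (k + 1)) (y n) := by
      rw [Lagrange.nodal_eq, ← Finset.prod_const, map_prod, ← Finset.prod_mul_distrib]
      refine Finset.prod_congr rfl fun l _ => ?_
      simp
    rw [h1, map_mul, aeval_C] at h0
    have h2 : ((-1 : ℝ) ^ (Finset.range (k + 1)).card) •
        (aeval (Y n k) (Lagrange.nodal (Finset.range (k + 1)) (y n))) = 0 := by
      rw [Algebra.smul_def]; exact h0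
    exact (smul_eq_zero.1 h2).resolve_left (pow_ne_zero _ (by norm_num))
  have key : ∀ q : ℝ[X], aeval (Y n k) q =
      ∑ l ∈ Finset.range (k + 1), (q.eval (y n l)) • E n k l := by
    intro q
    have hm := Lagrange.nodal_monic (s := Finset.range (k + 1)) (v := y n)
    have h1 := Polynomial.modByMonic_add_div q (Lagrange.nodal (Finset.range (k + 1)) (y n))
    have h2 : (q %ₘ Lagrange.nodal (Finset.range (k + 1)) (y n)) =
        Lagrange.interpolate (Finset.range (k + 1)) (y n) (fun l => q.eval (y n l)) := by
      refine Lagrange.eq_interpolate_of_eval_eq _ hv ?_ ?_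
      · have := Polynomial.degree_modByMonic_lt q hm
        rwa [Lagrange.degree_nodal] at this
      · intro l hl
        have h3 := congrArg (Polynomial.eval (y n l)) h1
        rw [eval_add, eval_mul, Lagrange.eval_nodal_at_node hl, zero_mul, add_zero] at h3
        exact h3
    have h4 : aeval (Y n k) q =
        aeval (Y n k) (q %ₘ Lagrange.nodal (Finset.range (k + 1)) (y n)) := by
      conv_lhs => rw [← h1]
      rw [map_add, map_mul, hnod, zero_mul, add_zero]
    rw [h4, h2, Lagrange.interpolate_apply, map_sum]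
    refine Finset.sum_congr rfl fun l _ => ?_
    rw [map_mul, aeval_C, Algebra.smul_def]
    rfl
  have hsym : ∀ (q : ℝ[X]) (f g : KS n k → ℝ),
      ip (aeval (Y n k) q f) g = ip f (aeval (Y n k) q g) := fun q f g =>
    DPS.H56.sym_aeval (Y n k) (fun f g => DPS.H77.sym n k f g) q f g
  have h1 : ∀ (b : ℝ[X]) (f : KS n k → ℝ),
      aeval (Y n k) b f = ∑ l ∈ Finset.range (k + 1), b.eval (y n l) • E n k l f := by
    intro b f
    rw [key b, LinearMap.sum_apply]
    rfl
  have h2 : ∀ (b : ℝ[X]) (l : ℕ), l ≤ k → ∀ f : KS n k → ℝ,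
      aeval (Y n k) b (E n k l f) = b.eval (y n l) • E n k l f := by
    intro b l hl f
    have hlm : l ∈ Finset.range (k + 1) := by
      rw [Finset.mem_range]
      omega
    have h3 : aeval (Y n k) b (E n k l f) = aeval (Y n k) (b * eb n k l) f := by
      rw [map_mul]
      rfl
    rw [h3, h1, Finset.sum_eq_single l]
    · rw [eval_mul, eb, Lagrange.eval_basis_self hv hlm, mul_one]
    · intro m hm hne
      rw [eval_mul, eb, Lagrange.eval_basis_of_ne (Ne.symm hne) hm, mul_zero, zero_smul]
    · intro h
      exact absurd hlm h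
  refine ⟨h1, h2, fun l hl f => ?_, fun l f g => hsym (eb n k l) f g⟩
  have hlm : l ∈ Finset.range (k + 1) := by
    rw [Finset.mem_range]
    omega
  have h3 := h2 (eb n k l) l hl f
  rw [eb, Lagrange.eval_basis_self hv hlm, one_smul] at h3
  have h4 := hsym (eb n k l) f (E n k l f)
  change ip f (E n k l f) = ip (E n k l f) (E n k l f)
  change ip (E n k l f) (E n k l f) = _ at h4
  rw [h4]
  exact congrArg (ip f) h3.symm

end Pool.Agent.DPL.H94
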