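import Pool.Agent.Helper88_DPL.Oda

/-!
Squad DPL (MP_d97b4e_co), row ODB: the odd level `j = t + 3`.
-/

set_option autoImplicit false

namespace Pool.Agent.DPL.H94

open Finset Polynomial Pool.Agent.DPS

theorem odb_poly {a t D : ℝ} (ha : 3 ≤ a) (ht : 2 ≤ t) (hD : t * a + 1 ≤ D) :
    a * (a - 1) * (a - 2) * ((t + 1) * (t + 2)) * 3 * (t * (D + a + 1)) ≤
      2 * (2 * (D * ((D - t - 1) * (D - t - 2)))) * (3 * (D + a - 2 - t)) := by
  obtain ⟨b, rfl⟩ : ∃ b, a = b + 3 := ⟨a - 3, by ring⟩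
  obtain ⟨s, rfl⟩ : ∃ s, t = s + 2 := ⟨t - 2, by ring⟩
  obtain ⟨x, rfl⟩ : ∃ x, D = (s + 2) * (b + 3) + 1 + x := ⟨D - ((s + 2) * (b + 3) + 1), by ring⟩
  have hb : 0 ≤ b := by linarith
  have hs : 0 ≤ s := by linarith
  have hx : 0 ≤ x := by linarith
  rw [← sub_nonneg]
  ring_nf
  positivity

theorem odb_pow {t : ℕ} (ht : 1 ≤ t) : (1 + 1 / (t : ℝ)) ^ t ≤ 3 := by
  have ht0 : (0 : ℝ) < t := by exact_mod_cast ht
  have h1 : 1 + 1 / (t : ℝ) ≤ Real.exp (1 / (t : ℝ)) := by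
    have := Real.add_one_le_exp (1 / (t : ℝ))
    linarith
  have h2 : (1 + 1 / (t : ℝ)) ^ t ≤ Real.exp (1 / (t : ℝ)) ^ t :=
    pow_le_pow_left₀ (by positivity) h1 t
  rw [← Real.exp_nat_mul, mul_one_div_cancel ht0.ne'] at h2
  have h3 := Real.exp_one_lt_d9
  linarith

theorem odb (csc : CSCStmt) (kra : KRAStmt) : ODBStmt := by
  intro n k t l ht2 hl htk hn
  have hl' := Finset.mem_Icc.1 hl
  have ht1 : 1 ≤ t := by omega
  have h2k : 2 * k ≤ n := H33.two_k_le ht1 (by omega) hn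
  have hratio := H33.cc_ratio (t := t) h2k (by omega) (j := t + 3) (by omega) (by omega) hl
  have hc := csc n k t (by omega) h2k
  have hkr := kra n k (t + 3) (by omega) h2k
  -- sizes
  have htr : (2 : ℝ) ≤ t := by exact_mod_cast ht2
  have ha : (3 : ℝ) ≤ (k : ℝ) - t := by
    have : (t : ℝ) + 3 ≤ k := by exact_mod_cast htk
    linarith
  have hnr : ((t : ℝ) + 1) * ((k : ℝ) - t + 1) ≤ n := by
    have h4 : ((t : ℝ) + 1) * (((k - t : ℕ) : ℝ) + 1) ≤ n := by exact_mod_cast hn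
    rwa [Nat.cast_sub (by omega)] at h4
  have hD : (t : ℝ) * ((k : ℝ) - t) + 1 ≤ (n : ℝ) - k := by
    have e : ((t : ℝ) + 1) * ((k : ℝ) - t + 1) = (t : ℝ) * ((k : ℝ) - t) + 1 + k := by ring
    linarith
  have hta : (6 : ℝ) ≤ (t : ℝ) * ((k : ℝ) - t) := by nlinarith
  have h3t : (t : ℝ) * 3 ≤ (t : ℝ) * ((k : ℝ) - t) :=
    mul_le_mul_of_nonneg_left ha (by linarith)
  have hnat : k + t + 4 ≤ n := by
    have : (k : ℝ) + t + 4 ≤ n := by linarith
    exact_mod_cast this
  -- the product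
  have hP1 : ∏ m ∈ Finset.Icc 1 t, (y n (t + 3) - y n m) =
      ((t + 2).descFactorial t : ℝ) * ((n - t - 3).descFactorial t : ℝ) := by
    have h1 : ∀ m ∈ Finset.Icc 1 t, y n (t + 3) - y n m =
        (((t + 2 : ℕ) : ℝ) + 1 - m) * (((n - t - 3 : ℕ) : ℝ) + 1 - m) := by
      intro m _
      rw [H94.y_sub, Nat.cast_sub (by omega), Nat.cast_sub (by omega)]
      push_cast
      ring
    rw [Finset.prod_congr rfl h1, Finset.prod_mul_distrib, H88.prod_desc (t + 2) t (by omega),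
      H88.prod_desc (n - t - 3) t (by omega)]
  have hP2 : ∏ m ∈ Finset.Icc 1 t, y n m = (t.factorial : ℝ) * (n.descFactorial t : ℝ) := by
    have h1 : ∀ m ∈ Finset.Icc 1 t, y n m = (m : ℝ) * ((n : ℝ) + 1 - m) := fun m _ => rfl
    rw [Finset.prod_congr rfl h1, Finset.prod_mul_distrib, H88.prod_desc n t (by omega)]
    rw [H88.prod_id]
  have hfac : ((t + 2).descFactorial t : ℝ) * 2 = ((t : ℝ) + 1) * (t + 2) * t.factorial := by
    have h1 := Nat.factorial_mul_descFactorial (n := t + 2) (k := t) (by omega)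
    rw [show t + 2 - t = 2 by omega, Nat.factorial_two, Nat.factorial_succ,
      Nat.factorial_succ] at h1
    have h2 : (2 : ℝ) * ((t + 2).descFactorial t : ℝ) =
        ((t : ℝ) + 1 + 1) * (((t : ℝ) + 1) * t.factorial) := by exact_mod_cast h1
    linarith
  have p3 : (0 : ℝ) < (t.factorial : ℝ) := by exact_mod_cast Nat.factorial_pos t
  have pos_desc : ∀ a b : ℕ, b ≤ a → (0 : ℝ) < (a.descFactorial b : ℝ) := by
    intro a b h
    have h1 : a.descFactorial b ≠ 0 := fun h2 => by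
      rw [Nat.descFactorial_eq_zero_iff_lt] at h2
      omega
    exact_mod_cast Nat.pos_of_ne_zero h1
  have q1 := pos_desc n t (by omega)
  have q2 := pos_desc k t (by omega)
  have q3 := pos_desc (n - k - 1) t (by omega)
  have q4 := pos_desc (n - t - 3) t (by omega)
  have hPi : ∏ m ∈ Finset.Icc 1 t, ((y n (t + 3) - y n m) / y n m) =
      (((t : ℝ) + 1) * (t + 2) / 2) *
        (((n - t - 3).descFactorial t : ℝ) / (n.descFactorial t : ℝ)) := by
    have h5 : ((t + 2).descFactorial t : ℝ) = ((t : ℝ) + 1) * (t + 2) * t.factorial / 2 := by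
      rw [eq_div_iff (by norm_num)]
      exact hfac
    rw [Finset.prod_div_distrib, hP1, hP2, h5]
    field_simp
  have e4 : (k.descFactorial (t + 3) : ℝ) =
      ((k : ℝ) - t) * ((k : ℝ) - t - 1) * ((k : ℝ) - t - 2) * (k.descFactorial t : ℝ) := by
    rw [Nat.descFactorial_succ, Nat.descFactorial_succ, Nat.descFactorial_succ]
    rw [Nat.cast_mul, Nat.cast_mul, Nat.cast_mul, Nat.cast_sub (by omega),
      Nat.cast_sub (by omega), Nat.cast_sub (by omega)]
    push_cast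
    ring
  have e5 : ((n - k).descFactorial (t + 3) : ℝ) =
      ((n : ℝ) - k) * (((n : ℝ) - k - t - 1) * ((n : ℝ) - k - t - 2)) *
        ((n - k - 1).descFactorial t : ℝ) := by
    obtain ⟨c, hc'⟩ : ∃ c, n - k = c + 1 := ⟨n - k - 1, by omega⟩
    rw [hc', Nat.succ_descFactorial_succ, Nat.descFactorial_succ, Nat.descFactorial_succ]
    have h1 : (n : ℝ) - k = c + 1 := by
      rw [← Nat.cast_sub (by omega), hc']
      push_cast
      rfl
    rw [h1, Nat.add_sub_cancel]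
    rw [Nat.cast_mul, Nat.cast_mul, Nat.cast_mul, Nat.cast_sub (by omega),
      Nat.cast_sub (by omega)]
    push_cast
    ring
  rw [e4, e5] at hkr
  obtain ⟨W, hW⟩ : ∃ W, W = |kap n k (t + 3) / kap n k 0| := ⟨_, rfl⟩
  rw [← hW] at hkr hratio
  have hcs : cs n k t = (n.descFactorial t : ℝ) / (k.descFactorial t : ℝ) := by
    rw [eq_div_iff q2.ne']
    exact hc
  have d0 : (0 : ℝ) < (n : ℝ) - k := by linarith
  have d1 : (0 : ℝ) < (n : ℝ) - k - t - 1 := by linarith
  have d2 : (0 : ℝ) < (n : ℝ) - k - t - 2 := by linarith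
  have hW' : W = ((k : ℝ) - t) * ((k : ℝ) - t - 1) * ((k : ℝ) - t - 2) *
      (k.descFactorial t : ℝ) / (((n : ℝ) - k) * (((n : ℝ) - k - t - 1) *
        ((n : ℝ) - k - t - 2)) * ((n - k - 1).descFactorial t : ℝ)) := by
    rw [eq_div_iff (mul_pos (mul_pos d0 (mul_pos d1 d2)) q3).ne']
    exact hkr
  -- the product bound
  have hP3 : ((n - t - 3).descFactorial t : ℝ) ≤ 3 * ((n - k - 1).descFactorial t : ℝ) := by
    rw [← H88.prod_desc (n - t - 3) t (by omega), ← H88.prod_desc (n - k - 1) t (by omega)]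
    have h1 : ∏ m ∈ Finset.Icc 1 t, (((n - t - 3 : ℕ) : ℝ) + 1 - m) ≤
        ∏ m ∈ Finset.Icc 1 t, ((1 + 1 / (t : ℝ)) * (((n - k - 1 : ℕ) : ℝ) + 1 - m)) := by
      refine Finset.prod_le_prod (fun m hm => ?_) (fun m hm => ?_)
      · rw [Finset.mem_Icc] at hm
        have hmt : (m : ℝ) ≤ t := by exact_mod_cast hm.2
        rw [Nat.cast_sub (by omega), Nat.cast_sub (by omega)]
        push_cast
        linarith
      · rw [Finset.mem_Icc] at hm
        have hmt : (m : ℝ) ≤ t := by exact_mod_cast hm.2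
        rw [Nat.cast_sub (by omega), Nat.cast_sub (by omega), Nat.cast_sub (by omega),
          Nat.cast_sub (by omega)]
        push_cast
        have ht0 : (0 : ℝ) < t := by linarith
        have h2 : (k : ℝ) - t - 2 ≤ 1 / (t : ℝ) * ((n : ℝ) - k - m) := by
          rw [one_div, inv_mul_eq_div, le_div_iff₀ ht0]
          have e : ((k : ℝ) - t - 2) * t = (t : ℝ) * ((k : ℝ) - t) - 2 * t := by ring
          rw [e]
          linarith
        have e2 : (1 + 1 / (t : ℝ)) * ((n : ℝ) - k - 1 + 1 - m) =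
            ((n : ℝ) - k - m) + 1 / (t : ℝ) * ((n : ℝ) - k - m) := by ring
        rw [e2]
        linarith
    rw [Finset.prod_mul_distrib, Finset.prod_const, Nat.card_Icc, Nat.add_sub_cancel] at h1
    refine h1.trans (mul_le_mul_of_nonneg_right (odb_pow ht1) ?_)
    rw [H88.prod_desc (n - k - 1) t (by omega)]
    exact q3.le
  have hyl : 0 < y n l := by
    have := H94.y_lt h2k (i := 0) (j := l) (by omega) (by omega)
    have h0 : y n 0 = 0 := H33.y_zero n
    rwa [h0] at this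
  have hyt : y n l ≤ y n t := by
    rcases eq_or_lt_of_le hl'.2 with h | h
    · rw [h]
    · exact (H94.y_lt h2k h (by omega)).le
  have hyd : 0 < y n (t + 3) - y n l := sub_pos.2 (H94.y_lt h2k (by omega) (by omega))
  have hydt : 0 < y n (t + 3) - y n t := sub_pos.2 (H94.y_lt h2k (by omega) (by omega))
  have hR : y n l / (y n (t + 3) - y n l) ≤ y n t / (y n (t + 3) - y n t) :=
    div_le_div₀ (hyl.le.trans hyt) hyt hydt (by linarith)
  have hyt' : y n t = (t : ℝ) * ((n : ℝ) - k + ((k : ℝ) - t) + 1) := by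
    unfold y
    ring
  have hydt' : y n (t + 3) - y n t = 3 * ((n : ℝ) - k + ((k : ℝ) - t) - 2 - t) := by
    rw [H94.y_sub]
    push_cast
    ring
  -- the key inequality
  have hA0 : 0 ≤ ((k : ℝ) - t) * ((k : ℝ) - t - 1) * ((k : ℝ) - t - 2) *
      (((t : ℝ) + 1) * (t + 2)) := by
    have h1 : (0 : ℝ) ≤ (k : ℝ) - t := by linarith
    have h2 : (0 : ℝ) ≤ (k : ℝ) - t - 1 := by linarith
    have h3 : (0 : ℝ) ≤ (k : ℝ) - t - 2 := by linarith
    positivity
  have hB0 : 0 < 2 * (((n : ℝ) - k) * (((n : ℝ) - k - t - 1) * ((n : ℝ) - k - t - 2))) :=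
    mul_pos two_pos (mul_pos d0 (mul_pos d1 d2))
  have hkey : (((k : ℝ) - t) * ((k : ℝ) - t - 1) * ((k : ℝ) - t - 2) *
      (((t : ℝ) + 1) * (t + 2)) /
        (2 * (((n : ℝ) - k) * (((n : ℝ) - k - t - 1) * ((n : ℝ) - k - t - 2))))) *
      (((n - t - 3).descFactorial t : ℝ) / ((n - k - 1).descFactorial t : ℝ)) *
      (y n l / (y n (t + 3) - y n l)) ≤ 2 := by
    have h1 : ((n - t - 3).descFactorial t : ℝ) / ((n - k - 1).descFactorial t : ℝ) ≤ 3 := by
      rw [div_le_iff₀ q3]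
      exact hP3
    have h2 : (((k : ℝ) - t) * ((k : ℝ) - t - 1) * ((k : ℝ) - t - 2) *
        (((t : ℝ) + 1) * (t + 2)) /
          (2 * (((n : ℝ) - k) * (((n : ℝ) - k - t - 1) * ((n : ℝ) - k - t - 2))))) * 3 *
        (y n t / (y n (t + 3) - y n t)) ≤ 2 := by
      rw [← mul_div_right_comm, div_mul_div_comm, div_le_iff₀ (mul_pos hB0 hydt), hydt', hyt']
      have h3 := odb_poly ha htr hD
      linarith
    refine le_trans ?_ h2
    refine mul_le_mul (mul_le_mul_of_nonneg_left h1 (div_nonneg hA0 hB0.le)) hR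
      (div_nonneg hyl.le hyd.le) ?_
    exact mul_nonneg (div_nonneg hA0 hB0.le) (by norm_num)
  have hc0 : 0 ≤ cc n k t 0 l := H33.cc_nonneg _ _ _ _ _
  calc cc n k t (t + 3) l * cs n k t
      = cc n k t 0 l * ((((k : ℝ) - t) * ((k : ℝ) - t - 1) * ((k : ℝ) - t - 2) *
      (((t : ℝ) + 1) * (t + 2)) /
        (2 * (((n : ℝ) - k) * (((n : ℝ) - k - t - 1) * ((n : ℝ) - k - t - 2))))) *
      (((n - t - 3).descFactorial t : ℝ) / ((n - k - 1).descFactorial t : ℝ)) *
      (y n l / (y n (t + 3) - y n l))) := by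
        rw [hratio, hPi, hW', hcs]
        field_simp
    _ ≤ cc n k t 0 l * 2 := mul_le_mul_of_nonneg_left hkey hc0
    _ = 2 * cc n k t 0 l := by ring

end Pool.Agent.DPL.H94
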