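import Pool.Agent.DPL.StmtsC

/-!
Squad DPL (MP_d97b4e_co), row TAU: disjoint sums on a level.
-/

set_option autoImplicit false

namespace Pool.Agent.DPL.H94

open Finset Polynomial Pool.Agent.DPS

theorem tau (ide : IDEStmt) (dge : DGEStmt) (las : LASStmt) (vdm : VDMStmt) (dis : DISStmt) :
    TAUStmt := by
  intro n k l r hn hlr hrk f R hR
  have hY : Y n k (E n k l f) = y n l • E n k l f := by
    have h := (ide n k hn).2.1 X l (by omega) f
    rwa [aeval_X, eval_X] at h
  have hd := dis n k (E n k l f) R
  rw [hR] at hd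
  rw [hd]
  have hsplit : ∑ j ∈ Finset.range (r + 1), (-1 : ℝ) ^ j *
      ∑ J ∈ powersetCard j R, dg (E n k l f) J =
      ∑ i ∈ Finset.range (r - l + 1), (-1 : ℝ) ^ (l + i) *
        ∑ J ∈ powersetCard (l + i) R, dg (E n k l f) J := by
    have h1 : r + 1 = l + (r - l + 1) := by omega
    rw [h1, Finset.sum_range_add, Finset.sum_eq_zero, zero_add]
    intro j hj
    rw [Finset.mem_range] at hj
    rw [Finset.sum_eq_zero, mul_zero]
    intro J hJ
    rw [Finset.mem_powersetCard] at hJ
    exact dge n k l hn (by omega) f J (by omega)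
  rw [hsplit, Finset.mul_sum]
  have hterm : ∀ i ∈ Finset.range (r - l + 1),
      ((k - l).descFactorial (r - l) : ℝ) * ((-1 : ℝ) ^ (l + i) *
        ∑ J ∈ powersetCard (l + i) R, dg (E n k l f) J) =
      ((-1 : ℝ) ^ l * ((-1 : ℝ) ^ i * ((r - l).choose i : ℝ) *
        ((n - 2 * l - i).descFactorial (r - l - i) : ℝ) * ((k - l).descFactorial i : ℝ))) *
        dg (E n k l f) R := by
    intro i hi
    rw [Finset.mem_range] at hi
    have h1 := las n k l r (l + i) hn (by omega) (by omega) hrk (E n k l f) hY R hR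
    have e1 : k - (l + i) = k - l - i := by omega
    have e2 : r - (l + i) = r - l - i := by omega
    have e3 : n - l - (l + i) = n - 2 * l - i := by omega
    rw [e1, e2, e3, Nat.choose_symm (by omega)] at h1
    have h2 : ((k - l).descFactorial (r - l) : ℝ) =
        ((k - l - i).descFactorial (r - l - i) : ℝ) * ((k - l).descFactorial i : ℝ) := by
      rw [← Nat.descFactorial_mul_descFactorial (n := k - l) (k := i) (m := r - l) (by omega)]
      push_cast
      ring
    rw [h2, pow_add]
    calc ((k - l - i).descFactorial (r - l - i) : ℝ) * ((k - l).descFactorial i : ℝ) *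
          ((-1 : ℝ) ^ l * (-1 : ℝ) ^ i * ∑ J ∈ powersetCard (l + i) R, dg (E n k l f) J)
        = (-1 : ℝ) ^ l * (-1 : ℝ) ^ i * ((k - l).descFactorial i : ℝ) *
          (((k - l - i).descFactorial (r - l - i) : ℝ) *
            ∑ J ∈ powersetCard (l + i) R, dg (E n k l f) J) := by ring
      _ = _ := by
          rw [h1]
          ring
  rw [Finset.sum_congr rfl hterm, ← Finset.sum_mul, ← Finset.mul_sum,
    vdm (r - l) (k - l) (n - 2 * l) (by omega) (by omega)]
  have e4 : n - 2 * l - (k - l) = n - k - l := by omega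
  rw [e4]

end Pool.Agent.DPL.H94
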