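import Pool.Agent.DPL.StmtsC
import Pool.Agent.Helper59_DPS.All

/-!
Squad DPL (MP_d97b4e_co), row TSL: truncated squares, small thresholds (`t = 2`).
-/

set_option autoImplicit false

namespace Pool.Agent.DPL.H94

open Finset Polynomial Pool.Agent.DPS

theorem tsl_sq {x w : ℝ} (h : x ≤ w) : (max x 0) ^ 2 ≤ w ^ 2 := by
  rcases le_total x 0 with h0 | h0
  · rw [max_eq_right h0]
    nlinarith [sq_nonneg w]
  · rw [max_eq_left h0]
    exact pow_le_pow_left₀ h0 h 2

theorem tsl_wf {n k : ℕ} (r : ℕ) {lam κ : ℝ} (hκ : 0 ≤ κ) (A : Finset (KS n k))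
    (R : Finset (Fin n)) :
    dg (ind A) R - lam * (A.card : ℝ) ≤ wf (L2 r lam κ) (ind A) R := by
  have h1 : (A.card : ℝ) = ∑ F : KS n k, ind A F := by
    unfold ind
    simp
  rw [h1, dg, Finset.mul_sum, ← Finset.sum_sub_distrib]
  unfold wf
  refine Finset.sum_le_sum fun F _ => ?_
  have h2 : 0 ≤ ind A F := by
    unfold ind
    split_ifs <;> norm_num
  have h3 : (if R ⊆ F.1 then ind A F else 0) - lam * ind A F =
      ((if R ⊆ F.1 then (1 : ℝ) else 0) - lam) * ind A F := by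
    split_ifs <;> ring
  rw [h3]
  refine mul_le_mul_of_nonneg_right ?_ h2
  unfold L2
  have h4 : (if (R \ F.1).card = 0 then (1 : ℝ) else 0) = if R ⊆ F.1 then (1 : ℝ) else 0 := by
    simp only [Finset.card_eq_zero, Finset.sdiff_eq_empty_iff_subset]
  rw [h4]
  have h5 : (0 : ℝ) ≤ if (R \ F.1).card = r then κ else 0 := by
    split_ifs
    · exact hκ
    · exact le_rfl
  linarith

theorem tsl (gcm : GCMStmt) (qtw : QTWStmt) (mon : MONStmt) (kbd : KBDStmt) (st2 : ST2Stmt)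
    (stv : STVStmt) : TSLStmt := by
  intro n k r hn hr hrk μ hμ hμ1 A hA T hT
  have h2k : 2 * k ≤ n := by omega
  have hS : (0 : ℝ) < ((n - 2).choose (k - 2) : ℝ) := by
    exact_mod_cast Nat.choose_pos (by omega)
  obtain ⟨S, hSdef⟩ : ∃ S : ℝ, S = ((n - 2).choose (k - 2) : ℝ) := ⟨_, rfl⟩
  have hS' : 0 < S := by rw [hSdef]; exact hS
  have hip : ip (star k T) (star k T) = S := by
    have h := (stv n k T ∅ (by omega) (by omega) (by simp)).2.2
    rw [hT] at h
    rw [h, hSdef]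
  have hcard : (A.card : ℝ) ≤ S := by
    have h := (Pool.Agent.DPS.H59.p2a' n k 2 0 (by omega) (by omega) (by omega) (by omega)
      A hA T hT).1
    rwa [hip] at h
  obtain ⟨lam, hlam⟩ : ∃ lam : ℝ, lam = μ / S := ⟨_, rfl⟩
  have hlam0 : 0 ≤ lam := by
    rw [hlam]
    exact div_nonneg hμ hS'.le
  have hlamS : lam * S = μ := by
    rw [hlam]
    exact div_mul_cancel₀ _ hS'.ne'
  have hlam1 : lam ≤ dl (n - 2) (k - 2) (r - 1) := by
    unfold dl
    rw [hlam, hSdef]
    refine div_le_div_of_nonneg_right ?_ hS.le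
    have e1 : n - 2 - (r - 1) = n - r - 1 := by omega
    have e2 : n - 2 - (k - 2) = n - k := by omega
    have e3 : (n - r - 1).choose (n - k) = (n - r - 1).choose (k - r - 1) := by
      rw [← Nat.choose_symm (show n - k ≤ n - r - 1 by omega)]
      congr 1
      omega
    rw [e1, e2, e3]
    exact hμ1
  obtain ⟨κ, hκ⟩ : ∃ κ : ℝ, κ = max (lam - dl (n - 2) (k - 2) r) 0 *
      ((n - 2).choose (k - 2) : ℝ) / ((n - 2 - r).choose (k - 2) : ℝ) := ⟨_, rfl⟩
  have hκ0 : 0 ≤ κ := by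
    rw [hκ]
    exact div_nonneg (mul_nonneg (le_max_right _ _) hS.le) (Nat.cast_nonneg _)
  have hκ1 := kbd n k r lam h2k hr hrk hlam1
  rw [← hκ] at hκ1
  obtain ⟨m, hm0, hm1, hm2, hm3⟩ := qtw n k r h2k (by omega) (by omega) lam κ
  have hmnn : ∀ l, l ≤ k → 0 ≤ m l := by
    intro l hl
    rcases Nat.eq_zero_or_pos l with h | h
    · rw [h]
      exact hm0
    · rcases le_or_gt l r with h1 | h1
      · rw [hm1 l h h1]
        exact mul_nonneg (sq_nonneg _) (Pool.Agent.DPS.H83.nonneg h2k hl)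
      · rw [hm2 l h1]
  have hmono : ∀ l j, 1 ≤ l → l ≤ 2 → 2 < j → j ≤ k → m j ≤ m l := by
    intro l j hl1 hl2 hj1 hj2
    rcases le_or_gt j r with h | h
    · rw [hm1 j (by omega) h, hm1 l hl1 (by omega)]
      exact mon n k r l j κ hn hr hrk hκ0 hκ1 hl1 hl2 hj1 h
    · rw [hm2 j h]
      exact hmnn l (by omega)
  have hmain := gcm n k 2 (by omega) (by omega) (by omega) m hmnn hmono A hA T hT
  rw [← hm3 (ind A), ← hm3 (star k T)] at hmain
  have hleft : ∑ R ∈ powersetCard r (univ : Finset (Fin n)), (max (dg (ind A) R - μ) 0) ^ 2 ≤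
      ∑ R ∈ powersetCard r (univ : Finset (Fin n)), wf (L2 r lam κ) (ind A) R ^ 2 := by
    refine Finset.sum_le_sum fun R hR => tsl_sq ?_
    have h1 := tsl_wf (lam := lam) r hκ0 A R
    have h2 : lam * (A.card : ℝ) ≤ μ := by
      rw [← hlamS]
      exact mul_le_mul_of_nonneg_left hcard hlam0
    linarith
  have hright : ∑ R ∈ powersetCard r (univ : Finset (Fin n)), wf (L2 r lam κ) (star k T) R ^ 2 =
      ∑ R ∈ powersetCard r (univ : Finset (Fin n)), (max (dg (star k T) R - μ) 0) ^ 2 := by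
    refine Finset.sum_congr rfl fun R hR => ?_
    rw [Finset.mem_powersetCard] at hR
    have h1 := st2 n k r lam hn hr hrk hlam0 hlam1 T R hT hR.2
    rw [← hκ] at h1
    rw [h1, hip, hlamS]
  rw [← hright]
  exact hleft.trans hmain

end Pool.Agent.DPL.H94
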